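import Mathlib

/-!
Growth theorem for maps of the unit ball with parametric representation.
-/

open Metric Set Filter Topology MeasureTheory

namespace Pool.Agent.P.MP_1fc8c4_an

/-- Harnack lower bound for a holomorphic function of positive real part. -/
lemma harnack {p : ℂ → ℂ} (hd : DifferentiableOn ℂ p (ball 0 1)) (h0 : p 0 = 1)
    (hpos : ∀ w ∈ ball (0 : ℂ) 1, 0 < (p w).re) {w : ℂ} (hw : ‖w‖ < 1) :
    (1 - ‖w‖) / (1 + ‖w‖) ≤ (p w).re := by
  have hne : ∀ x ∈ ball (0 : ℂ) 1, p x + 1 ≠ 0 := by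
    intro x hx h
    have h1 := congrArg Complex.re h
    have := hpos x hx
    simp at h1
    linarith
  set om : ℂ → ℂ := fun x => (p x - 1) / (p x + 1) with hom
  have hd' : DifferentiableOn ℂ om (ball 0 1) :=
    (hd.sub_const 1).div (hd.add_const 1) hne
  have hmaps : MapsTo om (ball 0 1) (closedBall 0 1) := by
    intro x hx
    rw [mem_closedBall_zero_iff, hom]
    simp only [norm_div]
    apply div_le_one_of_le₀ _ (norm_nonneg _)
    rw [← sq_le_sq₀ (norm_nonneg _) (norm_nonneg _), Complex.sq_norm, Complex.sq_norm,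
      Complex.normSq_apply, Complex.normSq_apply]
    have := hpos x hx
    simp
    nlinarith
  have h00 : om 0 = 0 := by simp [hom, h0]
  have key := Complex.norm_le_norm_of_mapsTo_ball hd' hmaps h00 hw
  have hwb : w ∈ ball (0 : ℂ) 1 := by simpa using hw
  have hpw := hpos w hwb
  have hn : 0 < ‖p w + 1‖ := norm_pos_iff.mpr (hne w hwb)
  simp only [hom, norm_div] at key
  rw [div_le_iff₀ hn] at key
  have hr0 : 0 ≤ ‖w‖ := norm_nonneg w
  have key2 : ‖p w - 1‖ ^ 2 ≤ (‖w‖ * ‖p w + 1‖) ^ 2 := by gcongr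
  rw [mul_pow, Complex.sq_norm (p w - 1), Complex.sq_norm (p w + 1),
    Complex.normSq_apply, Complex.normSq_apply] at key2
  simp only [Complex.sub_re, Complex.one_re, Complex.sub_im, Complex.one_im, sub_zero,
    Complex.add_re, Complex.add_im, add_zero] at key2
  set r := ‖w‖
  set x := (p w).re
  set y := (p w).im
  have hr2 : r ^ 2 ≤ 1 := by nlinarith
  have h3 : (1 - x) ^ 2 ≤ (r * (x + 1)) ^ 2 := by nlinarith [mul_self_nonneg y]
  have h4 : 1 - x ≤ r * (x + 1) := by
    apply le_trans (le_abs_self _)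
    exact abs_le_of_sq_le_sq h3 (by positivity)
  rw [div_le_iff₀ (by positivity)]
  nlinarith

variable {E : Type*} [NormedAddCommGroup E] [InnerProductSpace ℂ E]

/-- Lower bound for the radial part of a map of the class M. -/
lemma classM_lower [CompleteSpace E] {h : E → E} (hd : DifferentiableOn ℂ h (ball 0 1))
    (h0 : h 0 = 0) (h1 : fderiv ℂ h 0 = ContinuousLinearMap.id ℂ E)
    (hpos : ∀ z ∈ ball (0 : E) 1, z ≠ 0 → 0 < (inner ℂ z (h z)).re) {z : E}
    (hz : z ∈ ball (0 : E) 1) :
    ‖z‖ ^ 2 * ((1 - ‖z‖) / (1 + ‖z‖)) ≤ (inner ℂ z (h z)).re := by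
  rcases eq_or_ne z 0 with rfl | hz0
  · simp
  have hzn : 0 < ‖z‖ := norm_pos_iff.mpr hz0
  have hz1 : ‖z‖ < 1 := by simpa using hz
  set u : E := ((‖z‖⁻¹ : ℝ) : ℂ) • z with hu
  have hun : ‖u‖ = 1 := by
    rw [hu, norm_smul]; simp [hzn.ne']
  have hmem : ∀ w ∈ ball (0 : ℂ) 1, w • u ∈ ball (0 : E) 1 := by
    intro w hw
    simp only [mem_ball_zero_iff] at hw ⊢
    rw [norm_smul, hun]; simpa using hw
  set φ : ℂ → ℂ := fun w => innerSL ℂ u (h (w • u)) with hφ
  have hφd : DifferentiableOn ℂ φ (ball 0 1) := by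
    apply (innerSL ℂ u).differentiable.comp_differentiableOn
    apply hd.comp (by fun_prop) hmem
  have hφ0 : φ 0 = 0 := by simp [hφ, h0]
  have hder : HasDerivAt φ 1 0 := by
    have hh : HasFDerivAt h (ContinuousLinearMap.id ℂ E) ((fun w : ℂ => w • u) 0) := by
      simp only [zero_smul]
      rw [← h1]
      exact (hd.differentiableAt (ball_mem_nhds _ one_pos)).hasFDerivAt
    have h2 : HasDerivAt (fun w : ℂ => w • u) u 0 := by
      simpa using (hasDerivAt_id (0 : ℂ)).smul_const u
    have h3 := hh.comp_hasDerivAt (0 : ℂ) h2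
    have h4 := (innerSL ℂ u).hasFDerivAt.comp_hasDerivAt (0 : ℂ) h3
    refine HasDerivAt.congr_deriv (f := φ) h4 ?_
    simp [inner_self_eq_norm_sq_to_K, hun]
  set p := dslope φ 0 with hp
  have hpd : DifferentiableOn ℂ p (ball 0 1) :=
    (Complex.differentiableOn_dslope (ball_mem_nhds _ one_pos)).mpr hφd
  have hp0 : p 0 = 1 := by rw [hp, dslope_same, hder.deriv]
  have hrel : ∀ w : ℂ, w ≠ 0 → (inner ℂ (w • u) (h (w • u))).re = ‖w‖ ^ 2 * (p w).re := by
    intro w hw
    have e1 : p w = φ w / w := by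
      rw [hp, dslope_of_ne _ hw, slope_def_field, hφ0]; simp
    have e2 : inner ℂ (w • u) (h (w • u)) = ((‖w‖ ^ 2 : ℝ) : ℂ) * p w := by
      rw [inner_smul_left, e1, hφ]
      simp only [innerSL_apply_apply]
      have : ((‖w‖ ^ 2 : ℝ) : ℂ) = (starRingEnd ℂ) w * w := by
        rw [Complex.conj_mul']; simp
      rw [this]; field_simp
    rw [e2, Complex.re_ofReal_mul]
  have hppos : ∀ w ∈ ball (0 : ℂ) 1, 0 < (p w).re := by
    intro w hw
    rcases eq_or_ne w 0 with rfl | hw0
    · simp [hp0]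
    have hne : w • u ≠ 0 := by
      intro h
      have := congrArg norm h
      rw [norm_smul, hun] at this
      simp at this
      exact hw0 this
    have := hpos _ (hmem w hw) hne
    rw [hrel w hw0] at this
    by_contra hc
    push Not at hc
    nlinarith [sq_nonneg ‖w‖]
  have hzz : ((‖z‖ : ℝ) : ℂ) • u = z := by
    rw [hu, smul_smul, ← Complex.ofReal_mul, mul_inv_cancel₀ hzn.ne']; simp
  have hnn : ‖((‖z‖ : ℝ) : ℂ)‖ = ‖z‖ := by simp
  have hH := harnack hpd hp0 hppos (w := ((‖z‖ : ℝ) : ℂ)) (by rw [hnn]; exact hz1)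
  have hR := hrel ((‖z‖ : ℝ) : ℂ) (by exact_mod_cast hzn.ne')
  rw [hzz, hnn] at hR
  rw [hnn] at hH
  rw [hR]
  gcongr

/-- A function dominated by an absolutely continuous one is absolutely continuous. -/
lemma ac_of_dominated {X Y : Type*} [PseudoMetricSpace X] [PseudoMetricSpace Y]
    {f : ℝ → X} {g : ℝ → Y} {a b C : ℝ}
    (hg : AbsolutelyContinuousOnInterval g a b)
    (hfg : ∀ x ∈ uIcc a b, ∀ y ∈ uIcc a b, dist (f x) (f y) ≤ C * dist (g x) (g y)) :
    AbsolutelyContinuousOnInterval f a b := by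
  unfold AbsolutelyContinuousOnInterval at hg ⊢
  apply squeeze_zero' ?_ ?_ (by simpa using hg.const_mul C)
  · exact Filter.Eventually.of_forall <| fun _ ↦ Finset.sum_nonneg (fun i hi ↦ dist_nonneg)
  rw [eventually_inf_principal]
  filter_upwards with (n, I) hnI
  simp only [Finset.mul_sum]
  simp only [AbsolutelyContinuousOnInterval.disjWithin, mem_ofPred_eq] at hnI
  gcongr with i hi
  exact hfg _ (hnI.left i hi).left _ (hnI.left i hi).right

/-- The Koebe majorant. -/
noncomputable def kap (x : ℝ) : ℝ := x / (1 - x) ^ 2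

lemma kap_nonneg {x : ℝ} (hx : 0 ≤ x) : 0 ≤ kap x := by unfold kap; positivity

lemma kap_lip {r x y : ℝ} (hr : r < 1) (hx0 : 0 ≤ x) (hy0 : 0 ≤ y) (hx : x ≤ r) (hy : y ≤ r) :
    |kap x - kap y| ≤ (1 / (1 - r) ^ 4) * |x - y| := by
  have h1 : 0 < 1 - x := by linarith
  have h2 : 0 < 1 - y := by linarith
  have h3 : 0 < 1 - r := by linarith
  have e : kap x - kap y = (x - y) * ((1 - x * y) / ((1 - x) ^ 2 * (1 - y) ^ 2)) := by
    unfold kap; field_simp; ring
  rw [e, abs_mul, mul_comm]
  gcongr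
  have h4 : 0 ≤ 1 - x * y := by nlinarith
  rw [abs_of_nonneg (by positivity)]
  have h5 : (1 - r) ^ 4 ≤ (1 - x) ^ 2 * (1 - y) ^ 2 := by
    have : (1 - r) ^ 4 = (1 - r) ^ 2 * (1 - r) ^ 2 := by ring
    rw [this]; gcongr
  have h6 : 1 - x * y ≤ 1 := by nlinarith
  gcongr

lemma hasDerivAt_kap {x : ℝ} (hx : x < 1) : HasDerivAt kap ((1 + x) / (1 - x) ^ 3) x := by
  have h1 : (1 - x) ≠ 0 := by linarith
  have h2 : HasDerivAt (fun y : ℝ => (1 - y) ^ 2) (2 * (1 - x) * (-1)) x := by
    refine HasDerivAt.congr_deriv (((hasDerivAt_id x).const_sub 1).fun_pow 2) ?_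
    simp
  have h3 := (hasDerivAt_id x).fun_div h2 (pow_ne_zero 2 h1)
  refine HasDerivAt.congr_deriv (f := kap) h3 ?_
  simp only [id]
  field_simp
  ring

/-- The comparison argument along a solution of the Loewner equation. -/
lemma growth_flow [CompleteSpace E] [NormedSpace ℝ E] {H v : ℝ → E} {z : E}
    (hv : ∀ t : ℝ, 0 ≤ t → v t ∈ ball (0 : E) 1 ∧ IntervalIntegrable H volume 0 t ∧
      v t = z - ∫ s in (0 : ℝ)..t, H s)
    (hH : ∀ t : ℝ, 0 ≤ t →
      ‖v t‖ ^ 2 * ((1 - ‖v t‖) / (1 + ‖v t‖)) ≤ (inner ℂ (v t) (H t)).re)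
    {T : ℝ} (hT : 0 ≤ T) : Real.exp T * kap ‖v T‖ ≤ kap ‖z‖ := by
  have hI := (hv T hT).2.1
  have hsub : ∀ x ∈ uIcc (0 : ℝ) T, 0 ≤ x ∧ x ≤ T := by
    intro x hx; rw [uIcc_of_le hT] at hx; exact hx
  have hg : AbsolutelyContinuousOnInterval (fun x => ∫ s in (0 : ℝ)..x, ‖H s‖) 0 T :=
    hI.norm.absolutelyContinuousOnInterval_intervalIntegral (by simp)
  have hvac : AbsolutelyContinuousOnInterval v 0 T := by
    apply ac_of_dominated (C := 1) hg
    intro x hx y hy
    have hx0 := (hsub x hx).1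
    have hy0 := (hsub y hy).1
    rw [dist_eq_norm, (hv x hx0).2.2, (hv y hy0).2.2, one_mul, Real.dist_eq]
    have e1 : (z - ∫ s in (0 : ℝ)..x, H s) - (z - ∫ s in (0 : ℝ)..y, H s)
        = ∫ s in x..y, H s := by
      rw [← intervalIntegral.integral_interval_sub_left (hv y hy0).2.1 (hv x hx0).2.1]; abel
    rw [e1, intervalIntegral.integral_interval_sub_left (hv x hx0).2.1.norm (hv y hy0).2.1.norm,
      intervalIntegral.integral_symm x y, abs_neg]
    exact intervalIntegral.norm_integral_le_abs_integral_norm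
  obtain ⟨t0, ht0, hmax⟩ := isCompact_uIcc.exists_isMaxOn (s := uIcc (0 : ℝ) T)
    ⟨0, by simp⟩ hvac.continuousOn.norm
  have hr : ‖v t0‖ < 1 := by simpa using (hv t0 (hsub t0 ht0).1).1
  have hkac : AbsolutelyContinuousOnInterval (fun t => kap ‖v t‖) 0 T := by
    apply ac_of_dominated (C := 1 / (1 - ‖v t0‖) ^ 4) hvac
    intro x hx y hy
    rw [Real.dist_eq]
    refine (kap_lip hr (norm_nonneg _) (norm_nonneg _) (hmax hx) (hmax hy)).trans ?_
    have : 0 < 1 - ‖v t0‖ := by linarith
    gcongr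
    rw [dist_eq_norm]
    exact abs_norm_sub_norm_le _ _
  have heac : AbsolutelyContinuousOnInterval Real.exp 0 T :=
    (Real.contDiff_exp.contDiffOn).absolutelyContinuousOnInterval
  set W : ℝ → ℝ := fun t => Real.exp t * kap ‖v t‖ with hW
  have hWac : AbsolutelyContinuousOnInterval W 0 T := heac.fun_mul hkac
  have hftc := hWac.integral_deriv_eq_sub
  have hle : ∫ x in (0 : ℝ)..T, deriv W x ≤ 0 := by
    have : 0 ≤ ∫ x in (0 : ℝ)..T, - deriv W x := by
      apply intervalIntegral.integral_nonneg_of_ae_restrict hT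
      rw [Filter.EventuallyLE, ae_restrict_iff' measurableSet_Icc]
      have h₁ : ∀ᵐ x : ℝ, x ≠ 0 := by simp [ae_iff, measure_singleton]
      filter_upwards [hI.ae_hasDerivAt_integral, h₁] with x hx hx0 hxm
      have hxpos : 0 < x := lt_of_le_of_ne hxm.1 (Ne.symm hx0)
      have hd0 := hx (by rw [uIcc_of_le hT]; exact hxm) 0 (by simp)
      have hdv : HasDerivAt v (-H x) x := by
        have := hd0.const_sub z
        apply this.congr_of_eventuallyEq
        filter_upwards [Ioi_mem_nhds hxpos] with y hy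
        exact (hv y (le_of_lt hy)).2.2
      simp only [Pi.zero_apply, Left.nonneg_neg_iff]
      rcases eq_or_ne (v x) 0 with h0 | h0
      · apply le_of_eq
        apply IsLocalMin.deriv_eq_zero
        apply Filter.Eventually.of_forall
        intro y
        have : W x = 0 := by simp [hW, h0, kap]
        rw [this]
        exact mul_nonneg (Real.exp_pos _).le (kap_nonneg (norm_nonneg _))
      · have hρ : 0 < ‖v x‖ := norm_pos_iff.mpr h0
        have hρ1 : ‖v x‖ < 1 := by simpa using (hv x hxpos.le).1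
        have hin := hdv.inner ℂ hdv
        have hre := Complex.reCLM.hasFDerivAt.comp_hasDerivAt x hin
        have hsq : HasDerivAt (fun t => ‖v t‖ ^ 2) (-2 * (inner ℂ (v x) (H x)).re) x := by
          have efun : (fun t => ‖v t‖ ^ 2)
              = (⇑Complex.reCLM ∘ fun t => inner ℂ (v t) (v t)) := by
            ext t
            simp [inner_self_eq_norm_sq_to_K, ← Complex.ofReal_pow]
          rw [efun]
          refine hre.congr_deriv ?_
          · simp only [Complex.reCLM_apply, inner_neg_right, inner_neg_left, Complex.add_re,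
              Complex.neg_re]
            have : (inner ℂ (H x) (v x)).re = (inner ℂ (v x) (H x)).re := by
              rw [← inner_conj_symm, Complex.conj_re]
            rw [this]; ring
        have hnorm : HasDerivAt (fun t => ‖v t‖) (-(inner ℂ (v x) (H x)).re / ‖v x‖) x := by
          have h5 := hsq.sqrt (by positivity)
          convert h5 using 1
          · ext t; simp
          · simp only [norm_nonneg, Real.sqrt_sq]
            field_simp
        have hk := (hasDerivAt_kap hρ1).comp x hnorm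
        have hWd := (Real.hasDerivAt_exp x).mul hk
        have hWd' : deriv W x = Real.exp x * kap ‖v x‖ + Real.exp x *
            ((1 + ‖v x‖) / (1 - ‖v x‖) ^ 3 * (-(inner ℂ (v x) (H x)).re / ‖v x‖)) :=
          hWd.deriv
        rw [hWd', ← mul_add]
        apply mul_nonpos_of_nonneg_of_nonpos (Real.exp_pos _).le
        have hHx := hH x hxpos.le
        set ρ := ‖v x‖
        set q := (inner ℂ (v x) (H x)).re
        have h1 : 0 < 1 - ρ := by linarith
        have e : kap ρ + (1 + ρ) / (1 - ρ) ^ 3 * (-q / ρ)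
            = - ((1 + ρ) / ((1 - ρ) ^ 3 * ρ) * (q - ρ ^ 2 * ((1 - ρ) / (1 + ρ)))) := by
          unfold kap; field_simp; ring
        rw [e, neg_nonpos]
        apply mul_nonneg (by positivity) (by linarith)
    rw [intervalIntegral.integral_neg] at this
    linarith
  have hW0 : W 0 = kap ‖z‖ := by
    have := (hv 0 le_rfl).2.2
    simp at this
    simp [hW, this]
  have : W T ≤ W 0 := by linarith
  rw [hW0] at this
  exact this

end Pool.Agent.P.MP_1fc8c4_an
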