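import Mathlib

/-!
The Koebe function and its radial flow on the unit disc.
-/

open Metric Set Filter Topology MeasureTheory

namespace Pool.Agent.P.MP_1fc8c4_an

/-- The Koebe function. -/
noncomputable def koebe (x : ℂ) : ℂ := x / (1 - x) ^ 2

noncomputable def flowA (x : ℂ) (t : ℝ) : ℂ := 1 + 4 * ((Real.exp (-t) : ℝ) : ℂ) * koebe x

noncomputable def flowS (x : ℂ) (t : ℝ) : ℂ := Complex.sqrt (flowA x t)

/-- The flow of the Koebe function: the point of the disc with Koebe image exp(-t) K(x). -/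
noncomputable def flowV (x : ℂ) (t : ℝ) : ℂ := (flowS x t - 1) / (flowS x t + 1)

lemma one_sub_ne {x : ℂ} (hx : ‖x‖ < 1) : 1 - x ≠ 0 := by
  intro h
  have : x = 1 := by linear_combination -h
  rw [this] at hx; simp at hx

lemma one_add_ne {x : ℂ} (hx : ‖x‖ < 1) : 1 + x ≠ 0 := by
  intro h
  have : x = -1 := by linear_combination h
  rw [this] at hx; simp at hx

lemma cayley_re_pos {x : ℂ} (hx : ‖x‖ < 1) : 0 < ((1 + x) / (1 - x)).re := by
  have h1 := one_sub_ne hx
  have h2 : 0 < Complex.normSq (1 - x) := Complex.normSq_pos.mpr h1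
  have h3 : ‖x‖ ^ 2 < 1 := by nlinarith [norm_nonneg x]
  rw [Complex.sq_norm, Complex.normSq_apply] at h3
  rw [Complex.div_re, ← add_div]
  apply div_pos _ h2
  simp
  nlinarith

lemma cayley_re_pos' {x : ℂ} (hx : ‖x‖ < 1) : 0 < ((1 - x) / (1 + x)).re := by
  have := cayley_re_pos (x := -x) (by simpa using hx)
  simpa [sub_eq_add_neg] using this

lemma koebe_inj {a b : ℂ} (ha : ‖a‖ < 1) (hb : ‖b‖ < 1) (h : koebe a = koebe b) : a = b := by
  unfold koebe at h
  have h1 := one_sub_ne ha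
  have h2 := one_sub_ne hb
  rw [div_eq_div_iff (pow_ne_zero 2 h1) (pow_ne_zero 2 h2)] at h
  have h3 : (a - b) * (1 - a * b) = 0 := by linear_combination h
  have h4 : 1 - a * b ≠ 0 := by
    apply one_sub_ne
    rw [norm_mul]
    nlinarith [norm_nonneg a, norm_nonneg b]
  have := (mul_eq_zero.mp h3).resolve_right h4
  linear_combination this

lemma flowA_mem {x : ℂ} (hx : ‖x‖ < 1) {t : ℝ} (ht : 0 ≤ t) : flowA x t ∈ Complex.slitPlane := by
  have h1 := one_sub_ne hx
  have hq := cayley_re_pos hx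
  set q := (1 + x) / (1 - x) with hqd
  set l := Real.exp (-t) with hl
  have hl0 : 0 < l := Real.exp_pos _
  have hl1 : l ≤ 1 := Real.exp_le_one_iff.mpr (by linarith)
  have e : flowA x t = ((1 - l : ℝ) : ℂ) + (l : ℂ) * q ^ 2 := by
    unfold flowA koebe
    rw [← hl, hqd]
    push_cast
    field_simp
    ring
  rw [e, Complex.mem_slitPlane_iff]
  by_cases him : q.im = 0
  · left
    simp only [sq, Complex.add_re, Complex.ofReal_re, Complex.mul_re, Complex.ofReal_im, him,
      mul_zero, sub_zero, zero_mul]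
    have : 0 < l * (q.re * q.re) := by positivity
    linarith
  · right
    simp only [sq, Complex.add_im, Complex.ofReal_im, Complex.mul_im, Complex.ofReal_re, zero_mul,
      add_zero, zero_add]
    have : q.re * q.im + q.im * q.re = 2 * q.re * q.im := by ring
    rw [this]
    exact mul_ne_zero hl0.ne' (mul_ne_zero (by positivity) him)

lemma sqrt_sq' (a : ℂ) : Complex.sqrt a ^ 2 = a := by
  unfold Complex.sqrt
  exact Complex.cpow_ofNat_inv_pow a 2

lemma sqrt_re_pos {a : ℂ} (ha : a ∈ Complex.slitPlane) : 0 < (Complex.sqrt a).re := by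
  unfold Complex.sqrt
  rw [Complex.cpow_inv_two_re]
  apply Real.sqrt_pos.mpr
  have h1 : |a.re| ≤ ‖a‖ := Complex.abs_re_le_norm a
  rcases ha with h | h
  · have := norm_nonneg a; linarith
  · have h2 : |a.re| < ‖a‖ := Complex.abs_re_lt_norm.mpr h
    have := neg_abs_le a.re
    linarith

lemma flowS_sq (x : ℂ) (t : ℝ) : flowS x t ^ 2 = flowA x t := sqrt_sq' _

lemma flowS_re_pos {x : ℂ} (hx : ‖x‖ < 1) {t : ℝ} (ht : 0 ≤ t) : 0 < (flowS x t).re :=
  sqrt_re_pos (flowA_mem hx ht)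

lemma flowS_ne {x : ℂ} (hx : ‖x‖ < 1) {t : ℝ} (ht : 0 ≤ t) : flowS x t ≠ 0 := by
  intro h
  have := flowS_re_pos hx ht
  rw [h] at this; simp at this

lemma flowS_add_ne {x : ℂ} (hx : ‖x‖ < 1) {t : ℝ} (ht : 0 ≤ t) : flowS x t + 1 ≠ 0 := by
  intro h
  have h1 := flowS_re_pos hx ht
  have h2 := congrArg Complex.re h
  simp at h2
  linarith

lemma flowV_lt {x : ℂ} (hx : ‖x‖ < 1) {t : ℝ} (ht : 0 ≤ t) : ‖flowV x t‖ < 1 := by
  have h1 := flowS_re_pos hx ht
  have h2 := flowS_add_ne hx ht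
  unfold flowV
  rw [norm_div, div_lt_one (norm_pos_iff.mpr h2),
    ← sq_lt_sq₀ (norm_nonneg _) (norm_nonneg _), Complex.sq_norm, Complex.sq_norm,
    Complex.normSq_apply, Complex.normSq_apply]
  simp
  nlinarith

lemma koebe_flowV {x : ℂ} (hx : ‖x‖ < 1) {t : ℝ} (ht : 0 ≤ t) :
    koebe (flowV x t) = ((Real.exp (-t) : ℝ) : ℂ) * koebe x := by
  have h2 := flowS_add_ne hx ht
  have h3 := flowS_sq x t
  have e1 : koebe (flowV x t) = (flowS x t ^ 2 - 1) / 4 := by
    unfold koebe flowV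
    have : 1 - (flowS x t - 1) / (flowS x t + 1) = 2 / (flowS x t + 1) := by
      field_simp; ring
    rw [this]
    field_simp
    ring
  rw [e1, h3]
  unfold flowA
  ring

lemma flowV_zero {x : ℂ} (hx : ‖x‖ < 1) : flowV x 0 = x := by
  apply koebe_inj (flowV_lt hx le_rfl) hx
  rw [koebe_flowV hx le_rfl]; simp

lemma hasDerivAt_flowA (x : ℂ) (t : ℝ) : HasDerivAt (flowA x) (1 - flowA x t) t := by
  have h1 : HasDerivAt (fun s : ℝ => Real.exp (-s)) (-Real.exp (-t)) t := by
    simpa using (hasDerivAt_neg t).exp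
  have h2 := h1.ofReal_comp
  have h3 := ((h2.const_mul 4).mul_const (koebe x)).const_add 1
  refine HasDerivAt.congr_deriv (f := flowA x) h3 ?_
  unfold flowA
  push_cast
  ring

lemma hasDerivAt_flowS {x : ℂ} (hx : ‖x‖ < 1) {t : ℝ} (ht : 0 ≤ t) :
    HasDerivAt (flowS x) ((1 - flowS x t ^ 2) / (2 * flowS x t)) t := by
  have hm := flowA_mem hx ht
  have h1 := (Complex.hasDerivAt_sqrt hm).comp_of_eq t (hasDerivAt_flowA x t) rfl
  refine HasDerivAt.congr_deriv (f := flowS x) h1 ?_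
  have h2 : flowA x t ^ (-1 / 2 : ℂ) = (flowS x t)⁻¹ := by
    unfold flowS Complex.sqrt
    rw [← Complex.cpow_neg]
    congr 1
    norm_num
  rw [h2, flowS_sq]
  have := flowS_ne hx ht
  field_simp

lemma hasDerivAt_flowV {x : ℂ} (hx : ‖x‖ < 1) {t : ℝ} (ht : 0 ≤ t) :
    HasDerivAt (flowV x) (-(flowV x t * ((1 - flowV x t) / (1 + flowV x t)))) t := by
  have h1 := hasDerivAt_flowS hx ht
  have h2 := flowS_add_ne hx ht
  have h0 := flowS_ne hx ht
  have h3 := (h1.sub_const 1).fun_div (h1.add_const 1) h2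
  refine HasDerivAt.congr_deriv (f := flowV x) h3 ?_
  unfold flowV
  have e1 : 1 - (flowS x t - 1) / (flowS x t + 1) = 2 / (flowS x t + 1) := by
    field_simp; ring
  have e2 : 1 + (flowS x t - 1) / (flowS x t + 1) = 2 * flowS x t / (flowS x t + 1) := by
    field_simp; ring
  rw [e1, e2]
  field_simp
  ring

lemma flowV_le {x : ℂ} (hx : ‖x‖ < 1) {t : ℝ} (ht : 0 ≤ t) : ‖flowV x t‖ ≤ ‖x‖ := by
  have hd : ∀ s : ℝ, 0 ≤ s → HasDerivAt (fun s => ‖flowV x s‖ ^ 2)
      (-(2 * (‖flowV x s‖ ^ 2 * ((1 - flowV x s) / (1 + flowV x s)).re))) s := by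
    intro s hs
    refine (hasDerivAt_flowV hx hs).norm_sq.congr_deriv ?_
    rw [Complex.inner]
    have : -(flowV x s * ((1 - flowV x s) / (1 + flowV x s))) * (starRingEnd ℂ) (flowV x s)
        = -(((‖flowV x s‖ ^ 2 : ℝ) : ℂ) * ((1 - flowV x s) / (1 + flowV x s))) := by
      have h : ((‖flowV x s‖ ^ 2 : ℝ) : ℂ) = (starRingEnd ℂ) (flowV x s) * flowV x s := by
        rw [Complex.conj_mul']; simp
      rw [h]; ring
    rw [this, Complex.neg_re, Complex.re_ofReal_mul]
    ring
  have hanti : AntitoneOn (fun s => ‖flowV x s‖ ^ 2) (Ici 0) := by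
    apply antitoneOn_of_deriv_nonpos (convex_Ici 0)
    · intro s hs
      exact (hd s hs).continuousAt.continuousWithinAt
    · intro s hs
      exact (hd s (interior_subset hs)).differentiableAt.differentiableWithinAt
    · intro s hs
      have hs' : 0 ≤ s := interior_subset hs
      rw [(hd s hs').deriv, neg_nonpos]
      have := cayley_re_pos' (flowV_lt hx hs')
      positivity
  have := hanti (mem_Ici.mpr le_rfl) (mem_Ici.mpr ht) ht
  simp only [flowV_zero hx] at this
  exact (sq_le_sq₀ (norm_nonneg _) (norm_nonneg _)).mp this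

/-- The perturbing function. -/
noncomputable def eta (x : ℂ) : ℂ := x + x ^ 2 / 2

lemma eta_norm_le {x : ℂ} (hx : ‖x‖ < 1) : ‖eta x‖ ≤ 3 / 2 := by
  unfold eta
  refine (norm_add_le _ _).trans ?_
  rw [norm_div, norm_pow]
  simp
  nlinarith [norm_nonneg x]

lemma eta_flowV {x : ℂ} (hx : ‖x‖ < 1) {t : ℝ} (ht : 0 ≤ t) :
    ‖eta (flowV x t) - eta x‖ ≤ 2 * t := by
  have hd : ∀ s : ℝ, 0 ≤ s → HasDerivAt (fun s => eta (flowV x s))
      (-(flowV x s * (1 - flowV x s))) s := by
    intro s hs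
    have h1 := hasDerivAt_flowV hx hs
    have h2 := h1.fun_add ((h1.fun_pow 2).div_const 2)
    refine HasDerivAt.congr_deriv (f := fun s => eta (flowV x s)) h2 ?_
    have := one_add_ne (flowV_lt hx hs)
    simp only [Nat.cast_ofNat, Nat.add_one_sub_one, pow_one]
    field_simp
    ring
  have := norm_image_sub_le_of_norm_deriv_le_segment' (f := fun s => eta (flowV x s))
    (a := 0) (b := t) (C := 2) (fun s hs => (hd s hs.1).hasDerivWithinAt) (fun s hs => by
      have h1 := flowV_lt hx hs.1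
      rw [norm_neg, norm_mul]
      have h2 : ‖1 - flowV x s‖ ≤ 2 := by
        refine (norm_sub_le _ _).trans ?_
        simp; linarith
      nlinarith [norm_nonneg (flowV x s), norm_nonneg (1 - flowV x s)]) t ⟨ht, le_rfl⟩
  simpa [flowV_zero hx] using this

lemma flowV_tendsto_zero (x : ℂ) : Tendsto (flowV x) atTop (𝓝 0) := by
  have h1 : Tendsto (fun t : ℝ => Real.exp (-t)) atTop (𝓝 0) := Real.tendsto_exp_neg_atTop_nhds_zero
  have h2 : Tendsto (fun t : ℝ => ((Real.exp (-t) : ℝ) : ℂ)) atTop (𝓝 ((0 : ℝ) : ℂ)) :=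
    (Complex.continuous_ofReal.tendsto 0).comp h1
  have h3 : Tendsto (flowA x) atTop (𝓝 1) := by
    have := ((h2.const_mul 4).mul_const (koebe x)).const_add 1
    simp only [Complex.ofReal_zero, mul_zero, zero_mul, add_zero] at this
    exact this
  have h4 : Tendsto (flowS x) atTop (𝓝 1) := by
    have := (Complex.continuousAt_sqrt (z := 1) (by simp)).tendsto.comp h3
    rw [Complex.sqrt_one] at this
    exact this
  have h5 := (h4.sub_const 1).div (h4.add_const 1) (by norm_num)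
  simp only [sub_self, zero_div] at h5
  exact h5

lemma exp_flowV_tendsto {x : ℂ} (hx : ‖x‖ < 1) :
    Tendsto (fun t : ℝ => ((Real.exp t : ℝ) : ℂ) * flowV x t) atTop (𝓝 (koebe x)) := by
  have h1 := (((flowV_tendsto_zero x).const_sub 1).pow 2).const_mul (koebe x)
  simp only [sub_zero, one_pow, mul_one] at h1
  refine h1.congr' ?_
  filter_upwards [eventually_ge_atTop (0 : ℝ)] with t ht
  have h2 := koebe_flowV hx ht
  have h3 := one_sub_ne (flowV_lt hx ht)
  have h4 : koebe x = ((Real.exp t : ℝ) : ℂ) * koebe (flowV x t) := by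
    rw [h2, ← mul_assoc, ← Complex.ofReal_mul, ← Real.exp_add]; simp
  rw [h4]
  unfold koebe
  field_simp

end Pool.Agent.P.MP_1fc8c4_an
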