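import Mathlib
import Pool.Agent.P.MP_1fc8c4_an.Growth
import Pool.Agent.P.MP_1fc8c4_an.Koebe

/-!
The support point f(z) = (z₁ / (1 - z₁)², z₂) of S⁰ and a one-parameter family of normal
Loewner chains starting at it.
-/

open Metric Set Filter Topology MeasureTheory

namespace Pool.Agent.P.MP_1fc8c4_an

abbrev E2 := EuclideanSpace ℂ (Fin 2)

/-- The class of maps with parametric representation. -/
def classS0 : Set (E2 → E2) :=
  {g | ∃ (h : E2 → ℝ → E2) (v : E2 → ℝ → E2),
      (∀ t : ℝ, DifferentiableOn ℂ (fun z => h z t) (Metric.ball (0 : E2) 1) ∧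
        h 0 t = 0 ∧
        fderiv ℂ (fun z => h z t) 0 = ContinuousLinearMap.id ℂ E2 ∧
        ∀ z ∈ Metric.ball (0 : E2) 1, z ≠ 0 → 0 < (inner ℂ z (h z t)).re) ∧
      (∀ z ∈ Metric.ball (0 : E2) 1,
        MeasureTheory.StronglyMeasurable (fun t : ℝ => h z t)) ∧
      (∀ z ∈ Metric.ball (0 : E2) 1,
        (∀ t : ℝ, 0 ≤ t → v z t ∈ Metric.ball (0 : E2) 1 ∧
          IntervalIntegrable (fun s => h (v z s) s) MeasureTheory.volume 0 t ∧
          v z t = z - ∫ s in (0:ℝ)..t, h (v z s) s) ∧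
        Filter.Tendsto (fun t : ℝ => ((Real.exp t : ℝ) : ℂ) • v z t) Filter.atTop (nhds (g z)))}

/-- Normal Loewner chains. -/
def classNLC : Set (E2 → ℝ → E2) :=
  {F | (∀ t : ℝ, 0 ≤ t →
        DifferentiableOn ℂ (fun z => F z t) (Metric.ball (0 : E2) 1) ∧
        Set.InjOn (fun z => F z t) (Metric.ball (0 : E2) 1) ∧
        F 0 t = 0 ∧
        fderiv ℂ (fun z => F z t) 0 =
          ((Real.exp t : ℝ) : ℂ) • ContinuousLinearMap.id ℂ E2) ∧
      (∀ s t : ℝ, 0 ≤ s → s ≤ t →
        (fun z => F z s) '' Metric.ball (0 : E2) 1 ⊆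
          (fun z => F z t) '' Metric.ball (0 : E2) 1) ∧
      (∀ r : ℝ, r < 1 → ∃ M : ℝ, ∀ t : ℝ, 0 ≤ t → ∀ z : E2,
        ‖z‖ ≤ r → ‖F z t‖ ≤ M * Real.exp t)}

/-- Growth theorem. -/
lemma growth {g : E2 → E2} (hg : g ∈ classS0) {z : E2} (hz : z ∈ ball (0 : E2) 1) :
    ‖g z‖ ≤ kap ‖z‖ := by
  obtain ⟨h, v, hM, -, hv⟩ := hg
  obtain ⟨hv1, hlim⟩ := hv z hz
  have key : ∀ T : ℝ, 0 ≤ T → Real.exp T * kap ‖v z T‖ ≤ kap ‖z‖ := by
    intro T hT
    apply growth_flow (H := fun s => h (v z s) s) hv1 _ hT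
    intro t ht
    exact classM_lower (h := fun z => h z t) (hM t).1 (hM t).2.1 (hM t).2.2.1 (hM t).2.2.2
      (hv1 t ht).1
  apply le_of_tendsto hlim.norm
  filter_upwards [eventually_ge_atTop (0 : ℝ)] with T hT
  refine le_trans ?_ (key T hT)
  rw [norm_smul, Complex.norm_real, Real.norm_eq_abs, abs_of_pos (Real.exp_pos T)]
  gcongr
  have h1 : ‖v z T‖ < 1 := by simpa using (hv1 T hT).1
  have h0 := norm_nonneg (v z T)
  unfold kap
  rw [le_div_iff₀ (by have : 0 < 1 - ‖v z T‖ := by linarith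
                      positivity)]
  have : (1 - ‖v z T‖) ^ 2 ≤ 1 := by nlinarith
  nlinarith

/-- The point with two given coordinates. -/
noncomputable def mk2 (a b : ℂ) : E2 := !₂[a, b]

@[simp] lemma mk2_zero (a b : ℂ) : mk2 a b 0 = a := rfl
@[simp] lemma mk2_one (a b : ℂ) : mk2 a b 1 = b := rfl

lemma ext2 {z w : E2} (h0 : z 0 = w 0) (h1 : z 1 = w 1) : z = w := by
  ext i; fin_cases i
  · exact h0
  · exact h1

lemma mk2_eq (a b : ℂ) : mk2 a b = a • mk2 1 0 + b • mk2 0 1 := by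
  apply ext2 <;> simp

lemma norm_sq2 (z : E2) : ‖z‖ ^ 2 = ‖z 0‖ ^ 2 + ‖z 1‖ ^ 2 := by
  rw [EuclideanSpace.norm_sq_eq, Fin.sum_univ_two]

lemma fst_le (z : E2) : ‖z 0‖ ≤ ‖z‖ := PiLp.norm_apply_le z 0
lemma snd_le (z : E2) : ‖z 1‖ ≤ ‖z‖ := PiLp.norm_apply_le z 1

lemma fst_lt {z : E2} (hz : z ∈ ball (0 : E2) 1) : ‖z 0‖ < 1 :=
  (fst_le z).trans_lt (by simpa using hz)

lemma mem_ball_of_le {z w : E2} (hz : z ∈ ball (0 : E2) 1) (h0 : ‖w 0‖ ≤ ‖z 0‖)
    (h1 : ‖w 1‖ ≤ ‖z 1‖) : w ∈ ball (0 : E2) 1 := by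
  rw [mem_ball_zero_iff] at hz ⊢
  refine lt_of_le_of_lt ?_ hz
  rw [← sq_le_sq₀ (norm_nonneg _) (norm_nonneg _), norm_sq2, norm_sq2]
  gcongr

lemma norm_mk2_le (a b : ℂ) : ‖mk2 a b‖ ≤ ‖a‖ + ‖b‖ := by
  rw [← sq_le_sq₀ (norm_nonneg _) (by positivity), norm_sq2]
  simp only [mk2_zero, mk2_one]
  nlinarith [norm_nonneg a, norm_nonneg b]

lemma inner2 (z w : E2) : inner ℂ z w = w 0 * (starRingEnd ℂ) (z 0) + w 1 * (starRingEnd ℂ) (z 1) := by
  rw [PiLp.inner_apply, Fin.sum_univ_two]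
  simp

/-- Maps of the form (φ(z₁), z₂ m(z₁)). -/
noncomputable def skew (φ m : ℂ → ℂ) (z : E2) : E2 := mk2 (φ (z 0)) (z 1 * m (z 0))

lemma skew_differentiableOn {φ m : ℂ → ℂ} (hφ : DifferentiableOn ℂ φ (ball 0 1))
    (hm : DifferentiableOn ℂ m (ball 0 1)) :
    DifferentiableOn ℂ (skew φ m) (ball (0 : E2) 1) := by
  have hmaps : MapsTo (fun z : E2 => z 0) (ball (0 : E2) 1) (ball (0 : ℂ) 1) := by
    intro z hz; simpa using fst_lt hz
  have h0 : DifferentiableOn ℂ (fun z : E2 => z 0) (ball (0 : E2) 1) := by fun_prop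
  have h1 : DifferentiableOn ℂ (fun z : E2 => z 1) (ball (0 : E2) 1) := by fun_prop
  rw [differentiableOn_euclidean]
  intro i
  fin_cases i
  · exact hφ.comp h0 hmaps
  · exact h1.mul (hm.comp h0 hmaps)

lemma skew_fderiv {φ m : ℂ → ℂ} {c : ℂ} (hφ : HasDerivAt φ c 0)
    (hm : DifferentiableAt ℂ m 0) (hm0 : m 0 = c) :
    fderiv ℂ (skew φ m) 0 = c • ContinuousLinearMap.id ℂ E2 := by
  apply HasFDerivAt.fderiv
  have p0 : HasFDerivAt (fun z : E2 => z 0) (PiLp.proj 2 (fun _ : Fin 2 => ℂ) 0 : E2 →L[ℂ] ℂ) 0 :=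
    (PiLp.proj 2 (fun _ : Fin 2 => ℂ) 0 : E2 →L[ℂ] ℂ).hasFDerivAt
  have p1 : HasFDerivAt (fun z : E2 => z 1) (PiLp.proj 2 (fun _ : Fin 2 => ℂ) 1 : E2 →L[ℂ] ℂ) 0 :=
    (PiLp.proj 2 (fun _ : Fin 2 => ℂ) 1 : E2 →L[ℂ] ℂ).hasFDerivAt
  have a0 := HasDerivAt.comp_hasFDerivAt_of_eq (0 : E2) hφ p0 (by simp)
  have a1 := p1.mul (HasDerivAt.comp_hasFDerivAt_of_eq (0 : E2) hm.hasDerivAt p0 (by simp))
  have b := (a0.smul_const (mk2 1 0)).add (a1.smul_const (mk2 0 1))
  have e : skew φ m = ((fun y : E2 => (φ ∘ fun z : E2 => z 0) y • mk2 1 0) +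
      fun y : E2 => ((fun z : E2 => z 1) * (m ∘ fun z : E2 => z 0)) y • mk2 0 1) := by
    ext1 z
    simp only [skew, Pi.add_apply, Function.comp, Pi.mul_apply]
    exact mk2_eq _ _
  rw [e]
  refine b.congr_fderiv ?_
  ext1 w
  apply ext2 <;> simp [hm0]

lemma koebe_differentiableOn : DifferentiableOn ℂ koebe (ball 0 1) := by
  unfold koebe
  apply DifferentiableOn.div (by fun_prop) (by fun_prop)
  intro x hx
  exact pow_ne_zero 2 (one_sub_ne (by simpa using hx))

lemma koebe_hasDerivAt : HasDerivAt koebe 1 0 := by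
  have h2 := ((hasDerivAt_id (0 : ℂ)).const_sub 1).fun_pow 2
  have h3 := (hasDerivAt_id (0 : ℂ)).fun_div h2 (by simp)
  refine HasDerivAt.congr_deriv (f := koebe) h3 ?_
  simp

/-- The support point. -/
noncomputable def fK : E2 → E2 := skew koebe (fun _ => 1)

/-- Its generator. -/
noncomputable def hK : E2 → E2 := skew (fun x => x * ((1 - x) / (1 + x))) (fun _ => 1)

lemma fK_mem : fK ∈ classS0 := by
  refine ⟨fun z _ => hK z, fun z t => mk2 (flowV (z 0) t) (((Real.exp (-t) : ℝ) : ℂ) * z 1),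
    fun _ => ⟨?_, ?_, ?_, ?_⟩, fun z _ => stronglyMeasurable_const, fun z hz => ⟨fun t ht => ?_, ?_⟩⟩
  · apply skew_differentiableOn _ (by fun_prop)
    apply DifferentiableOn.mul (by fun_prop)
    apply DifferentiableOn.div (by fun_prop) (by fun_prop)
    intro x hx
    exact one_add_ne (by simpa using hx)
  · apply ext2 <;> simp [hK, skew]
  · have : HasDerivAt (fun x : ℂ => x * ((1 - x) / (1 + x))) 1 0 := by
      have h2 := ((hasDerivAt_id (0 : ℂ)).const_sub 1).fun_div
        ((hasDerivAt_id (0 : ℂ)).const_add 1) (by simp)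
      have h3 := (hasDerivAt_id (0 : ℂ)).fun_mul h2
      refine HasDerivAt.congr_deriv (f := fun x : ℂ => x * ((1 - x) / (1 + x))) h3 ?_
      simp
    have := skew_fderiv (m := fun _ => 1) this (by fun_prop) rfl
    rw [one_smul] at this
    exact this
  · intro z hz hz0
    have h0 := cayley_re_pos' (fst_lt hz)
    have e : inner ℂ z (hK z) = ((‖z 0‖ ^ 2 : ℝ) : ℂ) * ((1 - z 0) / (1 + z 0))
        + ((‖z 1‖ ^ 2 : ℝ) : ℂ) := by
      have h : ∀ a : ℂ, ((‖a‖ ^ 2 : ℝ) : ℂ) = (starRingEnd ℂ) a * a := by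
        intro a; rw [Complex.conj_mul']; simp
      rw [inner2, h, h]
      simp only [hK, skew, mk2_zero, mk2_one]
      ring
    rw [e, Complex.add_re, Complex.re_ofReal_mul, Complex.ofReal_re]
    have hpos : 0 < ‖z‖ ^ 2 := by positivity
    rw [norm_sq2] at hpos
    rcases eq_or_ne (z 1) 0 with h1 | h1
    · rw [h1] at hpos ⊢
      simp only [norm_zero, ne_eq, OfNat.ofNat_ne_zero, not_false_eq_true, zero_pow,
        add_zero] at hpos ⊢
      positivity
    · positivity
  · have hx := fst_lt hz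
    have hd : ∀ s : ℝ, 0 ≤ s → HasDerivAt
        (fun t : ℝ => mk2 (flowV (z 0) t) (((Real.exp (-t) : ℝ) : ℂ) * z 1))
        (-hK (mk2 (flowV (z 0) s) (((Real.exp (-s) : ℝ) : ℂ) * z 1))) s := by
      intro s hs
      have h1 : HasDerivAt (fun s : ℝ => Real.exp (-s)) (-Real.exp (-s)) s := by
        simpa using (hasDerivAt_neg s).exp
      have h2 := h1.ofReal_comp.mul_const (z 1)
      have h3 := ((hasDerivAt_flowV hx hs).smul_const (mk2 1 0)).fun_add (h2.smul_const (mk2 0 1))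
      have e : (fun t : ℝ => mk2 (flowV (z 0) t) (((Real.exp (-t) : ℝ) : ℂ) * z 1))
          = fun t : ℝ => flowV (z 0) t • mk2 1 0
            + (((Real.exp (-t) : ℝ) : ℂ) * z 1) • mk2 0 1 := by
        ext1 t; exact mk2_eq _ _
      rw [e]
      refine h3.congr_deriv ?_
      apply ext2 <;> simp [hK, skew]
    have hball : ∀ s : ℝ, 0 ≤ s →
        mk2 (flowV (z 0) s) (((Real.exp (-s) : ℝ) : ℂ) * z 1) ∈ ball (0 : E2) 1 := by
      intro s hs
      apply mem_ball_of_le hz
      · simpa using flowV_le hx hs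
      · rw [mk2_one, norm_mul, Complex.norm_real, Real.norm_eq_abs, abs_of_pos (Real.exp_pos _)]
        have : Real.exp (-s) ≤ 1 := Real.exp_le_one_iff.mpr (by linarith)
        nlinarith [norm_nonneg (z 1), Real.exp_pos (-s)]
    have hKc : ContinuousOn hK (ball (0 : E2) 1) := by
      apply DifferentiableOn.continuousOn (𝕜 := ℂ)
      apply skew_differentiableOn _ (by fun_prop)
      apply DifferentiableOn.mul (by fun_prop)
      apply DifferentiableOn.div (by fun_prop) (by fun_prop)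
      intro x hx
      exact one_add_ne (by simpa using hx)
    have hsub : ∀ s ∈ uIcc (0 : ℝ) t, 0 ≤ s := by
      intro s hs; rw [uIcc_of_le ht] at hs; exact hs.1
    have hint : IntervalIntegrable
        (fun s : ℝ => hK (mk2 (flowV (z 0) s) (((Real.exp (-s) : ℝ) : ℂ) * z 1))) volume 0 t := by
      apply ContinuousOn.intervalIntegrable
      apply hKc.comp (fun s hs => (hd s (hsub s hs)).continuousAt.continuousWithinAt)
      exact fun s hs => hball s (hsub s hs)
    refine ⟨hball t ht, hint, ?_⟩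
    have := intervalIntegral.integral_eq_sub_of_hasDerivAt (fun s hs => hd s (hsub s hs)) hint.neg
    rw [intervalIntegral.integral_neg] at this
    have e0 : mk2 (flowV (z 0) 0) (((Real.exp (-0) : ℝ) : ℂ) * z 1) = z := by
      apply ext2 <;> simp [flowV_zero hx]
    rw [e0] at this
    rw [sub_eq_add_neg, this]
    abel
  · have hx := fst_lt hz
    have h1 := ((exp_flowV_tendsto hx).smul_const (mk2 1 0)).add_const (z 1 • mk2 0 1)
    have e1 : fK z = koebe (z 0) • mk2 1 0 + z 1 • mk2 0 1 := by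
      apply ext2 <;> simp [fK, skew]
    rw [e1]
    refine h1.congr ?_
    intro t
    have : Complex.exp t * Complex.exp (-t) = 1 := by rw [← Complex.exp_add]; simp
    apply ext2
    · simp
    · simp [← mul_assoc, this]

lemma id_mem : (fun z : E2 => z) ∈ classS0 := by
  refine ⟨fun z _ => z, fun z t => ((Real.exp (-t) : ℝ) : ℂ) • z,
    fun _ => ⟨by fun_prop, rfl, by simp, ?_⟩, fun z _ => stronglyMeasurable_const,
    fun z hz => ⟨fun t ht => ?_, ?_⟩⟩
  · intro z _ hz0
    have : 0 < ‖z‖ ^ 2 := by positivity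
    simpa [inner_self_eq_norm_sq_to_K, ← Complex.ofReal_pow] using this
  · have hd : ∀ s : ℝ, HasDerivAt (fun t : ℝ => ((Real.exp (-t) : ℝ) : ℂ) • z)
        (-(((Real.exp (-s) : ℝ) : ℂ) • z)) s := by
      intro s
      have h1 : HasDerivAt (fun s : ℝ => Real.exp (-s)) (-Real.exp (-s)) s := by
        simpa using (hasDerivAt_neg s).exp
      refine (h1.ofReal_comp.smul_const z).congr_deriv ?_
      simp
    have hint : IntervalIntegrable (fun s : ℝ => ((Real.exp (-s) : ℝ) : ℂ) • z) volume 0 t := by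
      apply Continuous.intervalIntegrable
      fun_prop
    refine ⟨?_, hint, ?_⟩
    · rw [mem_ball_zero_iff] at hz ⊢
      rw [norm_smul, Complex.norm_real, Real.norm_eq_abs, abs_of_pos (Real.exp_pos _)]
      have : Real.exp (-t) ≤ 1 := Real.exp_le_one_iff.mpr (by linarith)
      nlinarith [norm_nonneg z, Real.exp_pos (-t)]
    · have := intervalIntegral.integral_eq_sub_of_hasDerivAt (fun s _ => hd s) hint.neg
      rw [intervalIntegral.integral_neg] at this
      rw [sub_eq_add_neg, this]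
      simp
  · refine tendsto_const_nhds.congr ?_
    intro t
    rw [smul_smul, ← Complex.ofReal_mul, ← Real.exp_add]
    simp

/-- The time-dependent size of the perturbation. -/
noncomputable def eps (c t : ℝ) : ℝ := c * (1 - Real.exp (-t))

/-- The chains (e^t K(z₁), e^t z₂ exp(c (1 - e^(-t)) (z₁ + z₁² / 2))). -/
noncomputable def chain (c : ℝ) (z : E2) (t : ℝ) : E2 :=
  skew (fun x => ((Real.exp t : ℝ) : ℂ) * koebe x)
    (fun x => Complex.exp ((t : ℂ) + (eps c t : ℝ) * eta x)) z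

lemma chain_zero (c : ℝ) (z : E2) : chain c z 0 = fK z := by
  apply ext2 <;> simp [chain, fK, skew, eps]

lemma eps_nonneg {c t : ℝ} (hc : 0 ≤ c) (ht : 0 ≤ t) : 0 ≤ eps c t := by
  have : Real.exp (-t) ≤ 1 := Real.exp_le_one_iff.mpr (by linarith)
  unfold eps
  apply mul_nonneg hc; linarith

lemma eps_le {c t : ℝ} (hc : 0 ≤ c) : eps c t ≤ c := by
  have := Real.exp_pos (-t)
  unfold eps
  nlinarith

lemma eps_sub {c s t : ℝ} (hc : 0 ≤ c) (hs : 0 ≤ s) (hst : s ≤ t) :
    0 ≤ eps c t - eps c s ∧ eps c t - eps c s ≤ c * (t - s) := by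
  have h1 : Real.exp (-t) ≤ Real.exp (-s) := Real.exp_le_exp.mpr (by linarith)
  have h2 : Real.exp (-s) ≤ 1 := Real.exp_le_one_iff.mpr (by linarith)
  have h3 : Real.exp (-t) = Real.exp (-s) * Real.exp (-(t - s)) := by
    rw [← Real.exp_add]; congr 1; ring
  have h4 : -(t - s) + 1 ≤ Real.exp (-(t - s)) := Real.add_one_le_exp _
  have h5 : Real.exp (-(t - s)) ≤ 1 := Real.exp_le_one_iff.mpr (by linarith)
  have h6 : Real.exp (-s) - Real.exp (-t) ≤ t - s := by
    rw [h3]
    nlinarith [Real.exp_pos (-s)]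
  have e : eps c t - eps c s = c * (Real.exp (-s) - Real.exp (-t)) := by unfold eps; ring
  rw [e]
  exact ⟨mul_nonneg hc (by linarith), by gcongr⟩

lemma chain_mem {c : ℝ} (hc : 0 ≤ c) (hc' : c ≤ 1 / 4) : chain c ∈ classNLC := by
  refine ⟨fun t _ => ⟨?_, ?_, ?_, ?_⟩, fun s t hs hst => ?_, fun r hr => ?_⟩
  · apply skew_differentiableOn (koebe_differentiableOn.const_mul _)
    unfold eta
    fun_prop
  · intro z hz w hw h
    have h0 := congrArg (fun y : E2 => y 0) h
    have h1 := congrArg (fun y : E2 => y 1) h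
    simp only [chain, skew, mk2_zero, mk2_one] at h0 h1
    have he : ((Real.exp t : ℝ) : ℂ) ≠ 0 := by exact_mod_cast (Real.exp_pos t).ne'
    have e0 : z 0 = w 0 := koebe_inj (fst_lt hz) (fst_lt hw) (mul_left_cancel₀ he h0)
    rw [e0] at h1
    exact ext2 e0 (mul_right_cancel₀ (Complex.exp_ne_zero _) h1)
  · apply ext2 <;> simp [chain, skew, koebe]
  · apply skew_fderiv
    · simpa using koebe_hasDerivAt.const_mul ((Real.exp t : ℝ) : ℂ)
    · unfold eta; fun_prop
    · simp [eta]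
  · rintro _ ⟨z, hz, rfl⟩
    have hx := fst_lt hz
    have hτ : 0 ≤ t - s := by linarith
    set y := flowV (z 0) (t - s) with hy
    have hy1 : ‖y‖ < 1 := flowV_lt hx hτ
    set a : ℂ := ((s : ℂ) + (eps c s : ℝ) * eta (z 0)) - ((t : ℂ) + (eps c t : ℝ) * eta y) with ha
    refine ⟨mk2 y (z 1 * Complex.exp a), ?_, ?_⟩
    · apply mem_ball_of_le hz
      · simpa using flowV_le hx hτ
      · rw [mk2_one, norm_mul, Complex.norm_exp]
        have hre : a.re ≤ 0 := by
          have e : a = -((t - s : ℝ) : ℂ) - (eps c s : ℝ) * (eta y - eta (z 0))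
              - ((eps c t - eps c s : ℝ) : ℂ) * eta y := by
            rw [ha]; push_cast; ring
          rw [e]
          simp only [Complex.sub_re, Complex.neg_re, Complex.ofReal_re, Complex.re_ofReal_mul]
          have b1 : |(eta y - eta (z 0)).re| ≤ 2 * (t - s) :=
            (Complex.abs_re_le_norm _).trans (eta_flowV hx hτ)
          have b2 : |(eta y).re| ≤ 3 / 2 := (Complex.abs_re_le_norm _).trans (eta_norm_le hy1)
          rw [Complex.sub_re] at b1
          have c1 := eps_nonneg hc hs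
          have c2 := eps_le (t := s) hc
          obtain ⟨c3, c4⟩ := eps_sub hc hs hst
          have d1 := (abs_le.mp b1).1
          have d2 := (abs_le.mp b2).1
          have f1 : -(eps c s * ((eta y).re - (eta (z 0)).re)) ≤ eps c s * (2 * (t - s)) := by
            nlinarith
          have f2 : -((eps c t - eps c s) * (eta y).re) ≤ (eps c t - eps c s) * (3 / 2) := by
            nlinarith
          have f3 : eps c s * (2 * (t - s)) ≤ (1 / 4) * (2 * (t - s)) := by
            gcongr; linarith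
          have f4 : c * (t - s) ≤ (1 / 4) * (t - s) := by gcongr
          linarith
        have : Real.exp a.re ≤ 1 := Real.exp_le_one_iff.mpr hre
        nlinarith [norm_nonneg (z 1), Real.exp_pos a.re]
    · apply ext2
      · simp only [chain, skew, mk2_zero]
        rw [hy, koebe_flowV hx hτ, ← mul_assoc, ← Complex.ofReal_mul, ← Real.exp_add]
        congr 3; ring
      · simp only [chain, skew, mk2_zero, mk2_one]
        rw [mul_assoc, ← Complex.exp_add, ha]
        congr 2; ring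
  · refine ⟨1 / (1 - r) ^ 2 + Real.exp 1, fun t ht z hz => ?_⟩
    have hz1 : ‖z‖ < 1 := hz.trans_lt hr
    have hx : ‖z 0‖ < 1 := (fst_le z).trans_lt hz1
    have hxr : ‖z 0‖ ≤ r := (fst_le z).trans hz
    have h1r : 0 < 1 - r := by linarith
    unfold chain skew
    refine (norm_mk2_le _ _).trans ?_
    rw [add_mul]
    apply add_le_add
    · rw [norm_mul, Complex.norm_real, Real.norm_eq_abs, abs_of_pos (Real.exp_pos _), mul_comm]
      gcongr
      unfold koebe
      rw [norm_div, norm_pow]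
      have : 1 - r ≤ ‖1 - z 0‖ := by
        have := norm_sub_norm_le (1 : ℂ) (z 0)
        simp only [norm_one] at this
        linarith
      gcongr
    · rw [norm_mul, Complex.norm_exp, ← Real.exp_add]
      have b2 : |(eta (z 0)).re| ≤ 3 / 2 := (Complex.abs_re_le_norm _).trans (eta_norm_le hx)
      have c1 := eps_nonneg hc ht
      have c2 := eps_le (t := t) hc
      have d2 := (abs_le.mp b2).2
      have : Real.exp ((t : ℂ) + (eps c t : ℝ) * eta (z 0)).re ≤ Real.exp (1 + t) := by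
        apply Real.exp_le_exp.mpr
        simp only [Complex.add_re, Complex.ofReal_re, Complex.re_ofReal_mul]
        nlinarith
      have h2 : ‖z 1‖ ≤ 1 := (snd_le z).trans hz1.le
      nlinarith [norm_nonneg (z 1), Real.exp_pos ((t : ℂ) + (eps c t : ℝ) * eta (z 0)).re]

lemma half_mem : mk2 (1 / 2) (1 / 2) ∈ ball (0 : E2) 1 := by
  rw [mem_ball_zero_iff, ← sq_lt_sq₀ (norm_nonneg _) zero_le_one, norm_sq2]
  simp; norm_num

lemma norm_base : ‖mk2 (1 / 2) 0‖ = 1 / 2 := by
  rw [← sq_eq_sq₀ (norm_nonneg _) (by norm_num), norm_sq2]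
  simp

lemma chain_ne : chain 0 (mk2 (1 / 2) (1 / 2)) 1 ≠ chain (1 / 4) (mk2 (1 / 2) (1 / 2)) 1 := by
  intro h
  have h1 := congrArg (fun y : E2 => ‖y 1‖) h
  simp only [chain, skew, mk2_zero, mk2_one, norm_mul, Complex.norm_exp] at h1
  have h2 := mul_left_cancel₀ (by simp) h1
  have h3 := Real.exp_injective h2
  have e : eta (1 / 2) = ((5 / 8 : ℝ) : ℂ) := by unfold eta; push_cast; norm_num
  rw [e] at h3
  simp only [Complex.add_re, Complex.ofReal_re, Complex.re_ofReal_mul, eps] at h3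
  have : Real.exp (-1) < 1 := Real.exp_lt_one_iff.mpr (by norm_num)
  linarith

end Pool.Agent.P.MP_1fc8c4_an
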